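import Pool.Agent.Helper24.UX.Core
import Pool.Agent.Helper65.UX.Dx3

/-!
# UX: assembly

`dx1`, `dx2`, `dx3`, `tx1`, `tx2`, `xs`, `gm` without hypotheses, and the final statement.
-/

set_option autoImplicit false
open MeasureTheory Set Filter Topology
open Pool.Agent.Helper93.UX

namespace Pool.Agent.Helper24.UX

/-- TX1: moments of the number of the zeros in a window -/
theorem tx1 : TX1 := Pool.Agent.Helper24.TX.tx1

/-- TX2: sharp tail of the number of the zeros in a window -/
theorem tx2 : TX2 := Pool.Agent.Helper24.TX.tx2

/-- DX3: upper bounds for the numbers of long and short gaps -/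
theorem dx3 : DX3 := Pool.Agent.Helper65.UX.dx3_of tx1 tx2

/-- the final statement -/
theorem finalX : FinalX := finalX_of Pool.Agent.Helper24.UV.final2 dx2 dx3

end Pool.Agent.Helper24.UX
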