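import Pool.Agent.Helper93.UX.Defs
import Pool.Agent.Helper24.UG.Win

/-!
# UX: from measure to ordinates (DX2)
-/

set_option autoImplicit false
open MeasureTheory Set Filter Topology
open Pool.Agent.Helper93.UG (zc IsOrd sp Glong Gshort)
open Pool.Agent.Helper93.UX

namespace Pool.Agent.Helper24.UX

/-- Sum over ordinates by Hölder, the long case. -/
def HolderLeft : Prop := ∀ q : ℕ, 2 ≤ q → ∃ C T₀ : ℝ, 0 < C ∧ ∀ T : ℝ, T₀ ≤ T → ∀ (G : Set ℝ) (H : Set ℝ),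
    MeasurableSet H → H ⊆ Icc (T + √T) (2 * T) → (∀ t ∈ H, ∀ g : ℝ, IsOrd g → T ≤ g → g ≤ t → zc (Ioo g t) = 0 → g ∈ G) →
    G ⊆ {g : ℝ | IsOrd g ∧ T ≤ g ∧ g ≤ 2 * T} → ∀ h : ℝ, 0 < h → h ≤ 1 → ENNReal.ofReal (h * T) ≤ volume H →
      h ^ ((q : ℝ) / (q - 1)) * (T * Real.log T) / C ≤ (G.ncard : ℝ)

/-- Sum over ordinates by Hölder, the short case. -/
def HolderRight : Prop := ∀ q : ℕ, 2 ≤ q → ∃ C T₀ : ℝ, 0 < C ∧ ∀ T : ℝ, T₀ ≤ T → ∀ (G : Set ℝ) (H : Set ℝ),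
    MeasurableSet H → H ⊆ Icc T (2 * T - √T) → (∀ t ∈ H, ∀ g : ℝ, IsOrd g → g ≤ 2 * T → t ≤ g → zc (Ico t g) = 0 → g ∈ G) →
    G ⊆ {g : ℝ | IsOrd g ∧ T ≤ g ∧ g ≤ 2 * T} → ∀ h : ℝ, 0 < h → h ≤ 1 → ENNReal.ofReal (h * T) ≤ volume H →
      h ^ ((q : ℝ) / (q - 1)) * (T * Real.log T) / C ≤ (G.ncard : ℝ)

lemma num {κ V r c : ℝ} (hκ : 0 < κ) (hκ1 : κ ≤ 1 / 8) (hV : 0 < V) (hr : 0 < r) (hc : r / 2 ≤ c)
    (hVr : V ^ 2 ≤ Real.exp (-(1 / κ)) * r) : 8 ≤ Real.log (r / V ^ 2) ∧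
    ((1 + κ) * V) ^ 2 / Real.log (c / ((1 + κ) * V) ^ 2) ≤ (1 + κ) ^ 2 / (1 - κ) * (V ^ 2 / Real.log (r / V ^ 2)) := by
  have hV2 : 0 < V ^ 2 := by positivity
  have h1 : Real.exp (1 / κ) ≤ r / V ^ 2 := by
    rw [le_div_iff₀ hV2]
    have h2 := mul_le_mul_of_nonneg_left hVr (Real.exp_pos (1 / κ)).le
    rwa [← mul_assoc, ← Real.exp_add, add_neg_cancel, Real.exp_zero, one_mul] at h2
  have h2 : 1 / κ ≤ Real.log (r / V ^ 2) := (Real.le_log_iff_exp_le (by positivity)).2 h1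
  have h3 : (8:ℝ) ≤ 1 / κ := by
    rw [le_div_iff₀ hκ]
    linarith
  refine ⟨h3.trans h2, ?_⟩
  set L : ℝ := Real.log (r / V ^ 2) with hL
  have hL0 : 0 < L := by linarith
  have hκL : 1 ≤ κ * L := by
    rw [div_le_iff₀ hκ] at h2
    linarith
  have h4 : r / V ^ 2 * Real.exp (-1) ≤ c / ((1 + κ) * V) ^ 2 := by
    rw [le_div_iff₀ (by positivity)]
    have e1 : r / V ^ 2 * Real.exp (-1) * ((1 + κ) * V) ^ 2 = r * ((1 + κ) ^ 2 * Real.exp (-1)) := by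
      field_simp
    rw [e1]
    have h5 : (1 + κ) ^ 2 ≤ 81 / 64 := by nlinarith
    have h6 : Real.exp (-1) ≤ 32 / 81 := by
      rw [Real.exp_neg, inv_le_comm₀ (Real.exp_pos _) (by norm_num)]
      have := Real.exp_one_gt_d9
      norm_num
      linarith
    have h7 : (1 + κ) ^ 2 * Real.exp (-1) ≤ 1 / 2 := by
      calc (1 + κ) ^ 2 * Real.exp (-1) ≤ 81 / 64 * (32 / 81) := mul_le_mul h5 h6 (Real.exp_pos _).le (by norm_num)
        _ = 1 / 2 := by norm_num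
    have := mul_le_mul_of_nonneg_left h7 hr.le
    linarith
  have h5 : L - 1 ≤ Real.log (c / ((1 + κ) * V) ^ 2) := by
    have h6 := Real.log_le_log (by positivity) h4
    rw [Real.log_mul (by positivity) (Real.exp_pos _).ne', Real.log_exp] at h6
    linarith
  have h6 : (1 - κ) * L ≤ Real.log (c / ((1 + κ) * V) ^ 2) := by nlinarith
  have h7 : 0 < (1 - κ) * L := mul_pos (by linarith) hL0
  calc ((1 + κ) * V) ^ 2 / Real.log (c / ((1 + κ) * V) ^ 2) ≤ ((1 + κ) * V) ^ 2 / ((1 - κ) * L) :=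
        div_le_div_of_nonneg_left (by positivity) h7 h6
    _ = (1 + κ) ^ 2 / (1 - κ) * (V ^ 2 / L) := by
        have : (1 - κ) ≠ 0 := by linarith
        field_simp

/-- the constants. -/
lemma kap {ε κ : ℝ} (hε : 0 < ε) (hκ : 0 < κ) (hκ1 : κ ≤ 1 / 8) (hκ2 : κ ≤ ε / (8 * Real.pi ^ 2 + 8 * ε)) :
    (1 + κ) * ((Real.pi ^ 2 / 2 + ε / 2) * ((1 + κ) ^ 2 / (1 - κ))) ≤ Real.pi ^ 2 / 2 + ε := by
  have hpi := Real.pi_pos
  have h0 : 0 < 1 - κ := by linarith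
  have h1 : (1 + κ) * ((1 + κ) ^ 2 / (1 - κ)) ≤ 1 + 8 * κ := by
    rw [← mul_div_assoc, div_le_iff₀ h0]
    nlinarith [mul_pos hκ hκ, mul_pos (mul_pos hκ hκ) hκ, mul_le_mul_of_nonneg_left hκ1 hκ.le,
      mul_le_mul_of_nonneg_left hκ1 (mul_pos hκ hκ).le]
  have h2 : κ * (8 * Real.pi ^ 2 + 8 * ε) ≤ ε := by rwa [le_div_iff₀ (by positivity)] at hκ2
  calc (1 + κ) * ((Real.pi ^ 2 / 2 + ε / 2) * ((1 + κ) ^ 2 / (1 - κ)))
      = (Real.pi ^ 2 / 2 + ε / 2) * ((1 + κ) * ((1 + κ) ^ 2 / (1 - κ))) := by ring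
    _ ≤ (Real.pi ^ 2 / 2 + ε / 2) * (1 + 8 * κ) := mul_le_mul_of_nonneg_left h1 (by positivity)
    _ ≤ Real.pi ^ 2 / 2 + ε := by nlinarith

/-- the size of the set after the end is cut off, and the power. -/
lemma pow_bd {C' E E₁ κ D T Cq : ℝ} {q : ℕ} (hC' : 0 < C') (hE0 : 0 ≤ E₁) (hE : E ≤ E₁) (hκ : 0 < κ) (hκ1 : κ ≤ 1)
    (hq : 1 / κ ≤ (q : ℝ) - 1) (hD : (1 + κ) * E₁ ≤ D) (hT : 1 ≤ T) (hT2 : C' + E₁ + Real.log 2 ≤ Real.log T / 2)
    (hlog : 0 ≤ Real.log T) (hCq : 0 < Cq) {C : ℝ} (hC : 2 * (C' + 1) + Real.log (max 1 Cq) ≤ C) :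
    0 < Real.exp (-(C' + E₁ + Real.log 2)) ∧ Real.exp (-(C' + E₁ + Real.log 2)) ≤ 1 ∧
    Real.exp (-(C' + E₁ + Real.log 2)) * T + √T ≤ Real.exp (-(C' + E)) * T ∧
    Real.exp (-(C + D)) * (T * Real.log T) ≤
      Real.exp (-(C' + E₁ + Real.log 2)) ^ ((q : ℝ) / (q - 1)) * (T * Real.log T) / Cq := by
  have hl2 : 0 < Real.log 2 := Real.log_pos (by norm_num)
  have hl2' : Real.log 2 ≤ 1 := by
    have := Real.log_two_lt_d9
    linarith
  have hT0 : 0 < T := by linarith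
  have h1 : Real.exp (-(C' + E₁ + Real.log 2)) ≤ 1 := by
    rw [Real.exp_le_one_iff]
    linarith
  refine ⟨Real.exp_pos _, h1, ?_, ?_⟩
  · have e1 : Real.exp (-(C' + E₁ + Real.log 2)) = Real.exp (-(C' + E₁)) / 2 := by
      rw [neg_add, Real.exp_add, Real.exp_neg (Real.log 2), Real.exp_log (by norm_num : (0:ℝ) < 2)]
      rfl
    have h2 : √T ≤ Real.exp (-(C' + E₁ + Real.log 2)) * T := by
      have e2 : √T = Real.exp (Real.log T / 2) := by
        rw [Real.sqrt_eq_rpow, Real.rpow_def_of_pos hT0]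
        congr 1
        ring
      have e3 : Real.exp (-(C' + E₁ + Real.log 2)) * T = Real.exp (Real.log T - (C' + E₁ + Real.log 2)) := by
        rw [Real.exp_sub, Real.exp_log hT0, Real.exp_neg]
        ring
      rw [e2, e3]
      apply Real.exp_le_exp.2
      linarith
    have h3 : Real.exp (-(C' + E₁)) ≤ Real.exp (-(C' + E)) := Real.exp_le_exp.2 (by linarith)
    calc Real.exp (-(C' + E₁ + Real.log 2)) * T + √T
        ≤ Real.exp (-(C' + E₁ + Real.log 2)) * T + Real.exp (-(C' + E₁ + Real.log 2)) * T := by linarith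
      _ = Real.exp (-(C' + E₁)) * T := by rw [e1]; ring
      _ ≤ Real.exp (-(C' + E)) * T := mul_le_mul_of_nonneg_right h3 hT0.le
  · have hq0 : 0 < (q : ℝ) - 1 := lt_of_lt_of_le (by positivity) hq
    have h2 : (q : ℝ) / (q - 1) ≤ 1 + κ := by
      rw [div_le_iff₀ hq0]
      rw [div_le_iff₀ hκ] at hq
      nlinarith
    have h3 : Real.exp (-(C' + E₁ + Real.log 2)) ^ (1 + κ) ≤
        Real.exp (-(C' + E₁ + Real.log 2)) ^ ((q : ℝ) / (q - 1)) :=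
      Real.rpow_le_rpow_of_exponent_ge (Real.exp_pos _) h1 h2
    have h4 : Real.exp (-(C + D)) ≤ Real.exp (-(C' + E₁ + Real.log 2)) ^ (1 + κ) / Cq := by
      rw [← Real.exp_mul]
      have h5 : Cq ≤ Real.exp (Real.log (max 1 Cq)) := by
        rw [Real.exp_log (lt_of_lt_of_le one_pos (le_max_left _ _))]
        exact le_max_right _ _
      rw [le_div_iff₀ hCq]
      calc Real.exp (-(C + D)) * Cq ≤ Real.exp (-(C + D)) * Real.exp (Real.log (max 1 Cq)) :=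
            mul_le_mul_of_nonneg_left h5 (Real.exp_pos _).le
        _ = Real.exp (-(C + D) + Real.log (max 1 Cq)) := (Real.exp_add _ _).symm
        _ ≤ Real.exp (-(C' + E₁ + Real.log 2) * (1 + κ)) := by
            apply Real.exp_le_exp.2
            nlinarith
    have h6 : 0 ≤ T * Real.log T := by positivity
    calc Real.exp (-(C + D)) * (T * Real.log T)
        ≤ Real.exp (-(C' + E₁ + Real.log 2)) ^ (1 + κ) / Cq * (T * Real.log T) := mul_le_mul_of_nonneg_right h4 h6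
      _ ≤ Real.exp (-(C' + E₁ + Real.log 2)) ^ ((q : ℝ) / (q - 1)) / Cq * (T * Real.log T) :=
          mul_le_mul_of_nonneg_right (div_le_div_of_nonneg_right h3 hCq.le) h6
      _ = _ := by ring

lemma zc_meas' (w : ℝ) : Measurable (fun t => (zc (Ico t (t + w)) : ℝ)) := by
  have h := (Pool.Agent.Helper24.UG.zc_meas (w / 2)).comp (measurable_add_const (w / 2))
  have e : (fun t => (zc (Ico (t - w / 2) (t + w / 2)) : ℝ)) ∘ (fun t => t + w / 2) = fun t => (zc (Ico t (t + w)) : ℝ) := by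
    funext t
    simp only [Function.comp_apply]
    congr 3 <;> ring
  rw [← e]
  exact h

lemma meas_H (a b w c' V' σ : ℝ) : MeasurableSet {t : ℝ | a ≤ t ∧ t ≤ b ∧ V' ≤ σ * (c' - (zc (Ico t (t + w)) : ℝ))} := by
  have h1 : Measurable fun t : ℝ => σ * (c' - (zc (Ico t (t + w)) : ℝ)) := (measurable_const.sub (zc_meas' w)).const_mul σ
  exact (measurableSet_le measurable_const measurable_id).inter ((measurableSet_le measurable_id measurable_const).inter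
    (measurableSet_le measurable_const h1))

/-- the end is cut off. -/
lemma cut_left {P : ℝ → Prop} {T x y : ℝ} (hx : 0 ≤ x) (hxy : x + √T ≤ y)
    (h : ENNReal.ofReal y ≤ volume {t : ℝ | T ≤ t ∧ t ≤ 2 * T ∧ P t}) :
    ENNReal.ofReal x ≤ volume {t : ℝ | T + √T ≤ t ∧ t ≤ 2 * T ∧ P t} := by
  have h1 : {t : ℝ | T ≤ t ∧ t ≤ 2 * T ∧ P t} ⊆ {t : ℝ | T + √T ≤ t ∧ t ≤ 2 * T ∧ P t} ∪ Icc T (T + √T) := by
    rintro t ⟨a1, a2, a3⟩
    rcases le_total (T + √T) t with a4 | a4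
    · exact Or.inl ⟨a4, a2, a3⟩
    · exact Or.inr ⟨a1, a4⟩
  have h2 := h.trans ((measure_mono h1).trans (measure_union_le _ _))
  rw [Real.volume_Icc, add_sub_cancel_left] at h2
  have h3 : ENNReal.ofReal x + ENNReal.ofReal √T ≤ ENNReal.ofReal y := by
    rw [← ENNReal.ofReal_add hx (Real.sqrt_nonneg _)]
    exact ENNReal.ofReal_le_ofReal hxy
  exact (ENNReal.add_le_add_iff_right ENNReal.ofReal_ne_top).1 (h3.trans h2)

lemma cut_right {P : ℝ → Prop} {T x y : ℝ} (hx : 0 ≤ x) (hxy : x + √T ≤ y)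
    (h : ENNReal.ofReal y ≤ volume {t : ℝ | T ≤ t ∧ t ≤ 2 * T ∧ P t}) :
    ENNReal.ofReal x ≤ volume {t : ℝ | T ≤ t ∧ t ≤ 2 * T - √T ∧ P t} := by
  have h1 : {t : ℝ | T ≤ t ∧ t ≤ 2 * T ∧ P t} ⊆ {t : ℝ | T ≤ t ∧ t ≤ 2 * T - √T ∧ P t} ∪ Icc (2 * T - √T) (2 * T) := by
    rintro t ⟨a1, a2, a3⟩
    rcases le_total t (2 * T - √T) with a4 | a4
    · exact Or.inl ⟨a1, a4, a3⟩
    · exact Or.inr ⟨a4, a2⟩
  have h2 := h.trans ((measure_mono h1).trans (measure_union_le _ _))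
  rw [Real.volume_Icc, sub_sub_cancel] at h2
  have h3 : ENNReal.ofReal x + ENNReal.ofReal √T ≤ ENNReal.ofReal y := by
    rw [← ENNReal.ofReal_add hx (Real.sqrt_nonneg _)]
    exact ENNReal.ofReal_le_ofReal hxy
  exact (ENNReal.add_le_add_iff_right ENNReal.ofReal_ne_top).1 (h3.trans h2)

lemma long_mem {T ℓ V' V : ℝ} {r : ℕ} (hV : V < V') (hℓ : 0 ≤ ℓ) {t g : ℝ} (h1 : IsOrd g) (h2 : T ≤ g) (h3 : g ≤ t)
    (h4 : zc (Ioo g t) = 0) (ht : t ≤ 2 * T) (h5 : V' ≤ 1 * ((r + V) - (zc (Ico t (t + ℓ)) : ℝ))) :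
    T ≤ g ∧ g ≤ 2 * T ∧ IsOrd g ∧ zc (Ioo g (g + ℓ)) < r := by
  refine ⟨h2, h3.trans ht, h1, ?_⟩
  have h6 : zc (Ioo g (g + ℓ)) ≤ zc (Ioo g t ∪ Ico t (t + ℓ)) := by
    refine Pool.Agent.Helper56.UG.zc_mono (a := g) (b := t + ℓ) ?_ ?_
    · rintro x ⟨hx1, hx2⟩
      rcases lt_or_ge x t with hx | hx
      · exact Or.inl ⟨hx1, hx⟩
      · exact Or.inr ⟨hx, by linarith⟩
    · rintro x (⟨hx1, hx2⟩ | ⟨hx1, hx2⟩)
      · exact ⟨hx1.le, by linarith⟩
      · exact ⟨h3.trans hx1, hx2.le⟩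
  have h7 : zc (Ioo g t ∪ Ico t (t + ℓ)) = zc (Ioo g t) + zc (Ico t (t + ℓ)) := by
    refine Pool.Agent.Helper56.UG.zc_union (a := g) (b := t + ℓ) ?_ ?_ ?_
    · rintro x ⟨hx1, hx2⟩
      exact ⟨hx1.le, by linarith⟩
    · rintro x ⟨hx1, hx2⟩
      exact ⟨h3.trans hx1, hx2.le⟩
    · rw [Set.disjoint_left]
      rintro x ⟨hx1, hx2⟩ ⟨hx3, hx4⟩
      linarith
  rw [h7, h4, zero_add] at h6
  have h8 : ((zc (Ico t (t + ℓ)) : ℕ) : ℝ) < r := by linarith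
  exact h6.trans_lt (by exact_mod_cast h8)

lemma short_mem {T ℓ V' V : ℝ} {r : ℕ} (hV : V < V') (hℓ : 0 ≤ ℓ) {t g : ℝ} (h1 : IsOrd g) (h2 : g ≤ 2 * T) (h3 : t ≤ g)
    (h4 : zc (Ico t g) = 0) (ht : T ≤ t) (h5 : V' ≤ (-1) * ((r - V) - (zc (Ico t (t + ℓ)) : ℝ))) :
    T ≤ g ∧ g ≤ 2 * T ∧ IsOrd g ∧ r < zc (Icc g (g + ℓ)) := by
  refine ⟨ht.trans h3, h2, h1, ?_⟩
  have h6 : zc (Ico t (t + ℓ)) ≤ zc (Ico t g ∪ Icc g (g + ℓ)) := by
    refine Pool.Agent.Helper56.UG.zc_mono (a := t) (b := g + ℓ) ?_ ?_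
    · rintro x ⟨hx1, hx2⟩
      rcases lt_or_ge x g with hx | hx
      · exact Or.inl ⟨hx1, hx⟩
      · exact Or.inr ⟨hx, by linarith⟩
    · rintro x (⟨hx1, hx2⟩ | ⟨hx1, hx2⟩)
      · exact ⟨hx1, by linarith⟩
      · exact ⟨h3.trans hx1, hx2⟩
  have h7 : zc (Ico t g ∪ Icc g (g + ℓ)) = zc (Ico t g) + zc (Icc g (g + ℓ)) := by
    refine Pool.Agent.Helper56.UG.zc_union (a := t) (b := g + ℓ) ?_ ?_ ?_
    · rintro x ⟨hx1, hx2⟩
      exact ⟨hx1, by linarith⟩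
    · rintro x ⟨hx1, hx2⟩
      exact ⟨h3.trans hx1, hx2⟩
    · rw [Set.disjoint_left]
      rintro x ⟨hx1, hx2⟩ ⟨hx3, hx4⟩
      linarith
  rw [h7, h4, zero_add] at h6
  have h8 : (r : ℝ) < ((zc (Ico t (t + ℓ)) : ℕ) : ℝ) := by linarith
  exact lt_of_lt_of_le (by exact_mod_cast h8) h6

theorem dx2_of (hHL : HolderLeft) (hHR : HolderRight) (h1 : DX1) : DX2 := by
  intro ε hε
  have hpi := Real.pi_pos
  set κ : ℝ := min (1 / 8) (ε / (8 * Real.pi ^ 2 + 8 * ε)) with hκd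
  have hκ : 0 < κ := lt_min (by norm_num) (by positivity)
  have hκ1 : κ ≤ 1 / 8 := min_le_left _ _
  have hkap := kap hε hκ hκ1 (min_le_right _ _)
  obtain ⟨K', C', η', c₀, c₁, T₁, hK', hC', hη', hc₁, h1⟩ := h1 (ε / 2) (by positivity)
  set q : ℕ := ⌈1 / κ⌉₊ + 1 with hqd
  have hκ8 : (8:ℝ) ≤ 1 / κ := by
    rw [le_div_iff₀ hκ]
    linarith
  have hq1 : 1 / κ ≤ (q : ℝ) - 1 := by
    rw [hqd]
    push_cast
    have := Nat.le_ceil (1 / κ)
    linarith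
  have hq2 : 2 ≤ q := by
    have : (2:ℝ) ≤ q := by linarith
    exact_mod_cast this
  obtain ⟨CL, T₂, hCL, hL⟩ := hHL q hq2
  obtain ⟨CR, T₃, hCR, hR⟩ := hHR q hq2
  set Cq : ℝ := max CL CR with hCqd
  have hl := Real.tendsto_log_atTop
  have hll : Tendsto (fun T : ℝ => Real.log (Real.log T)) atTop atTop := hl.comp hl
  obtain ⟨T₄, hT₄⟩ := eventually_atTop.mp ((hl.eventually_ge_atTop (8 * (C' + 1))).and
    ((hll.eventually_ge_atTop (Real.pi ^ 2 / 2 + ε)).and (eventually_ge_atTop 1)))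
  have hexp := Real.exp_pos (-(1 / (2 * κ)))
  have hη : 0 < min (min (η' / 4) (1 / 2)) (Real.exp (-(1 / (2 * κ)))) := by positivity
  set η : ℝ := min (min (η' / 4) (1 / 2)) (Real.exp (-(1 / (2 * κ)))) with hηd
  have hη1 : η ≤ η' / 4 := (min_le_left _ _).trans (min_le_left _ _)
  have hη2 : η ≤ 1 / 2 := (min_le_left _ _).trans (min_le_right _ _)
  have hη3 : η ≤ Real.exp (-(1 / (2 * κ))) := min_le_right _ _
  refine ⟨max 3 ⌈2 * c₀⌉₊, 2 * K', 2 * (C' + 1) + Real.log (max 1 Cq), η, min (c₁ / 2) 1, max T₄ (max T₁ (max T₂ T₃)),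
    by positivity, ?_, hη, by positivity, ?_⟩
  · have := Real.log_nonneg (le_max_left (1:ℝ) Cq)
    linarith
  intro T hT r hr hrT V hKV hVη
  obtain ⟨hT4a, hT4b, hT1⟩ := hT₄ T ((le_max_left _ _).trans hT)
  have hTT1 : T₁ ≤ T := (le_max_left _ _).trans ((le_max_right _ _).trans hT)
  have hTT2 : T₂ ≤ T := (le_max_left _ _).trans ((le_max_right _ _).trans ((le_max_right _ _).trans hT))
  have hTT3 : T₃ ≤ T := (le_max_right _ _).trans ((le_max_right _ _).trans ((le_max_right _ _).trans hT))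
  have hr3 : (3:ℝ) ≤ r := by exact_mod_cast (le_max_left _ _).trans hr
  have hr0 : (0:ℝ) < r := by linarith
  have hrc : 2 * c₀ ≤ r := (Nat.le_ceil _).trans (by exact_mod_cast (le_max_right _ _).trans hr)
  have hlogr : 1 < Real.log r := by
    rw [Real.lt_log_iff_exp_lt hr0]
    have := Real.exp_one_lt_d9
    linarith
  have hV0 : 0 < V := lt_of_lt_of_le (by positivity) hKV
  have hlT0 : 0 < Real.log T := by linarith
  have hlT : 0 ≤ Real.log T := hlT0.le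
  have hllT0 : 0 < Real.log (Real.log T) := lt_of_lt_of_le (by positivity) hT4b
  have hquo : 0 ≤ Real.log T / Real.log (Real.log T) := by positivity
  have hsr : √(r:ℝ) ^ 2 = r := Real.sq_sqrt hr0.le
  have hsr1 : 1 ≤ √(r:ℝ) := by
    rw [Real.one_le_sqrt]
    linarith
  have hVr : V ≤ r / 2 := by
    have h2 : V ≤ 1 / 2 * √(r:ℝ) := hVη.trans (mul_le_mul_of_nonneg_right hη2 (Real.sqrt_nonneg _))
    have h3 : √(r:ℝ) ≤ r := by
      have := mul_le_mul_of_nonneg_left hsr1 (Real.sqrt_nonneg (r:ℝ))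
      rw [Real.mul_self_sqrt hr0.le] at this
      linarith
    linarith
  have hV2 : V ^ 2 ≤ Real.exp (-(1 / κ)) * r := by
    have h2 : V ≤ Real.exp (-(1 / (2 * κ))) * √r := hVη.trans (mul_le_mul_of_nonneg_right hη3 (Real.sqrt_nonneg _))
    have h3 := pow_le_pow_left₀ hV0.le h2 2
    rw [mul_pow, hsr, ← Real.exp_nat_mul] at h3
    refine h3.trans (le_of_eq ?_)
    congr 2
    field_simp
    norm_num
  -- what is needed for one `c`
  have key : ∀ c : ℝ, (r:ℝ) / 2 ≤ c → c ≤ 2 * r → ∀ σ : ℝ, (σ = 1 ∨ σ = -1) →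
      ∃ h : ℝ, 0 < h ∧ h ≤ 1 ∧ (∀ y : ℝ, y = Real.exp (-(C' + (Real.pi ^ 2 / 2 + ε / 2) * ((1 + κ) * V) ^ 2 /
        Real.log (c / ((1 + κ) * V) ^ 2))) * T → h * T + √T ≤ y) ∧
      (ENNReal.ofReal (Real.exp (-(C' + (Real.pi ^ 2 / 2 + ε / 2) * ((1 + κ) * V) ^ 2 /
        Real.log (c / ((1 + κ) * V) ^ 2))) * T) ≤
        volume {t : ℝ | T ≤ t ∧ t ≤ 2 * T ∧ (1 + κ) * V ≤ σ * (c - (zc (Ico t (t + c * sp T)) : ℝ))}) ∧
      (∀ B : ℝ, 0 < B → B ≤ Cq → Real.exp (-(2 * (C' + 1) + Real.log (max 1 Cq) +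
        (Real.pi ^ 2 / 2 + ε) * V ^ 2 / Real.log (r / V ^ 2))) * (T * Real.log T) ≤
          h ^ ((q : ℝ) / (q - 1)) * (T * Real.log T) / B) := by
    intro c hc1 hc2 σ hσ
    have hc0 : 0 < c := by linarith
    obtain ⟨hn1, hn2⟩ := num hκ hκ1 hV0 hr0 hc1 hV2
    set L : ℝ := Real.log (r / V ^ 2) with hLd
    have hL0 : 0 < L := by linarith
    set E : ℝ := (Real.pi ^ 2 / 2 + ε / 2) * ((1 + κ) * V) ^ 2 / Real.log (c / ((1 + κ) * V) ^ 2) with hEd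
    set E₁ : ℝ := (Real.pi ^ 2 / 2 + ε / 2) * ((1 + κ) ^ 2 / (1 - κ) * (V ^ 2 / L)) with hE₁d
    have hκ0 : 0 < 1 - κ := by linarith
    have hE₁0 : 0 ≤ E₁ := by positivity
    have hEE : E ≤ E₁ := by
      rw [hEd, hE₁d, mul_div_assoc]
      exact mul_le_mul_of_nonneg_left hn2 (by positivity)
    have hD : (1 + κ) * E₁ ≤ (Real.pi ^ 2 / 2 + ε) * V ^ 2 / L := by
      have h2 : 0 ≤ V ^ 2 / L := by positivity
      calc (1 + κ) * E₁ = (1 + κ) * ((Real.pi ^ 2 / 2 + ε / 2) * ((1 + κ) ^ 2 / (1 - κ))) * (V ^ 2 / L) := by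
            rw [hE₁d]; ring
        _ ≤ (Real.pi ^ 2 / 2 + ε) * (V ^ 2 / L) := mul_le_mul_of_nonneg_right hkap h2
        _ = _ := by ring
    have hE₁T : E₁ ≤ Real.log T / 8 := by
      have h2 : E₁ ≤ (Real.pi ^ 2 / 2 + ε) * V ^ 2 / L := by
        refine le_trans ?_ hD
        have := mul_nonneg hκ.le hE₁0
        linarith
      have h3 : V ^ 2 / L ≤ r / 8 := by
        rw [div_le_iff₀ hL0]
        have h4 : V ^ 2 ≤ r := by
          refine hV2.trans (mul_le_of_le_one_left hr0.le ?_)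
          rw [Real.exp_le_one_iff]
          linarith
        have := mul_le_mul_of_nonneg_left hn1 hr0.le
        linarith
      have h4 : (r:ℝ) ≤ Real.log T / Real.log (Real.log T) :=
        hrT.trans (mul_le_of_le_one_left hquo (min_le_right _ _))
      rw [le_div_iff₀ hllT0] at h4
      have h5 : (Real.pi ^ 2 / 2 + ε) * r ≤ Real.log T := by
        refine le_trans ?_ h4
        rw [mul_comm]
        exact mul_le_mul_of_nonneg_left hT4b hr0.le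
      calc E₁ ≤ (Real.pi ^ 2 / 2 + ε) * V ^ 2 / L := h2
        _ = (Real.pi ^ 2 / 2 + ε) * (V ^ 2 / L) := by ring
        _ ≤ (Real.pi ^ 2 / 2 + ε) * (r / 8) := mul_le_mul_of_nonneg_left h3 (by positivity)
        _ ≤ Real.log T / 8 := by linarith
    have hl2 : Real.log 2 ≤ 1 := by
      have := Real.log_two_lt_d9
      linarith
    have hT2 : C' + E₁ + Real.log 2 ≤ Real.log T / 2 := by linarith
    obtain ⟨p1, p2, p3, -⟩ := pow_bd (q := q) (Cq := 1) (C := 2 * (C' + 1) + Real.log (max 1 1)) hC' hE₁0 hEE hκ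
      (by linarith) hq1 hD hT1 hT2 hlT one_pos le_rfl
    refine ⟨Real.exp (-(C' + E₁ + Real.log 2)), p1, p2, fun y hy => by rw [hy]; exact p3, ?_, ?_⟩
    · refine h1 T hTT1 c ((1 + κ) * V) σ (by linarith) ?_ ?_ ?_ hσ
      · refine hc2.trans ?_
        have h2 : 2 * (r:ℝ) ≤ 2 * (c₁ / 2 * (Real.log T / Real.log (Real.log T))) :=
          mul_le_mul_of_nonneg_left (hrT.trans (mul_le_mul_of_nonneg_right (min_le_left _ _) hquo)) (by norm_num)
        linarith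
      · have h2 : √(Real.log c) ≤ 2 * √(Real.log r) := by
          have h3 : Real.log c ≤ 4 * Real.log r := by
            have h4 : Real.log c ≤ Real.log (2 * r) := Real.log_le_log hc0 hc2
            rw [Real.log_mul (by norm_num) hr0.ne'] at h4
            linarith
          calc √(Real.log c) ≤ √(4 * Real.log r) := Real.sqrt_le_sqrt h3
            _ = 2 * √(Real.log r) := by
                rw [Real.sqrt_mul (by norm_num), show (4:ℝ) = 2 ^ 2 by norm_num, Real.sqrt_sq (by norm_num)]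
        have h3 := mul_le_mul_of_nonneg_left h2 hK'.le
        have h4 : V ≤ (1 + κ) * V := by
          have := mul_nonneg hκ.le hV0.le
          linarith
        linarith
      · have h2 : √r ≤ 2 * √c := by
          have h3 : (r:ℝ) ≤ 4 * c := by linarith
          calc √(r:ℝ) ≤ √(4 * c) := Real.sqrt_le_sqrt h3
            _ = 2 * √c := by
                rw [Real.sqrt_mul (by norm_num), show (4:ℝ) = 2 ^ 2 by norm_num, Real.sqrt_sq (by norm_num)]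
        have h3 : V ≤ η' / 4 * √r := hVη.trans (mul_le_mul_of_nonneg_right hη1 (Real.sqrt_nonneg _))
        have h4 : η' / 4 * √r ≤ η' / 4 * (2 * √c) := mul_le_mul_of_nonneg_left h2 (by positivity)
        have h5 : (1 + κ) * V ≤ 2 * V := mul_le_mul_of_nonneg_right (by linarith) hV0.le
        linarith
    · intro B hB hBC
      have h2 := (pow_bd (q := q) (Cq := B) (C := 2 * (C' + 1) + Real.log (max 1 Cq)) hC' hE₁0 hEE hκ
        (by linarith) hq1 hD hT1 hT2 hlT hB (by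
          have : Real.log (max 1 B) ≤ Real.log (max 1 Cq) :=
            Real.log_le_log (lt_of_lt_of_le one_pos (le_max_left _ _)) (max_le_max le_rfl hBC)
          linarith)).2.2.2
      exact h2
  have hsp : 0 ≤ sp T := by
    unfold sp
    positivity
  have hVV : V < (1 + κ) * V := by
    have := mul_pos hκ hV0
    linarith
  constructor
  · obtain ⟨h, hh0, hh1, hh2, hh3, hh4⟩ := key (r + V) (by linarith) (by linarith) 1 (Or.inl rfl)
    refine (hh4 CL hCL (le_max_left _ _)).trans ?_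
    refine hL T hTT2 (Glong T (r + V) r) {t : ℝ | T + √T ≤ t ∧ t ≤ 2 * T ∧
      (1 + κ) * V ≤ 1 * ((r + V) - (zc (Ico t (t + (r + V) * sp T)) : ℝ))} ?_ ?_ ?_ ?_ h hh0 hh1 ?_
    · exact meas_H _ _ _ _ _ _
    · rintro t ⟨a1, a2, -⟩
      exact ⟨a1, a2⟩
    · rintro t ⟨a1, a2, a3⟩ g g1 g2 g3 g4
      exact long_mem (V := V) hVV (by positivity) g1 g2 g3 g4 a2 a3
    · rintro g ⟨g1, g2, g3, -⟩
      exact ⟨g3, g1, g2⟩
    · exact cut_left (by positivity) (hh2 _ rfl) hh3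
  · obtain ⟨h, hh0, hh1, hh2, hh3, hh4⟩ := key (r - V) (by linarith) (by linarith) (-1) (Or.inr rfl)
    refine (hh4 CR hCR (le_max_right _ _)).trans ?_
    refine hR T hTT3 (Gshort T (r - V) r) {t : ℝ | T ≤ t ∧ t ≤ 2 * T - √T ∧
      (1 + κ) * V ≤ (-1) * ((r - V) - (zc (Ico t (t + (r - V) * sp T)) : ℝ))} ?_ ?_ ?_ ?_ h hh0 hh1 ?_
    · exact meas_H _ _ _ _ _ _
    · rintro t ⟨a1, a2, -⟩
      exact ⟨a1, a2⟩
    · rintro t ⟨a1, a2, a3⟩ g g1 g2 g3 g4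
      exact short_mem (V := V) hVV (mul_nonneg (by linarith) hsp) g1 g2 g3 g4 a1 a3
    · rintro g ⟨g1, g2, g3, -⟩
      exact ⟨g3, g1, g2⟩
    · exact cut_right (by positivity) (hh2 _ rfl) hh3

end Pool.Agent.Helper24.UX
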