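import Pool.Agent.Helper8.UX.R
import Pool.Agent.Helper8.UX.T4
import Pool.Agent.Helper82.UX.Dev
import Pool.Agent.Helper88.UX.Xs
import Pool.Agent.Helper94.UX.ToMeas
import Pool.Agent.Helper65.UX.R
import Pool.Agent.Helper36.X.All

/-!
# UX: assembly of parts (a) and (b)
-/

set_option autoImplicit false
open MeasureTheory Set Filter Topology
open Pool.Agent.Helper93.UX

namespace Pool.Agent.Helper24.UX

/-- XS: measure of the deviations of the averaged count -/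
theorem xs : XS :=
  Pool.Agent.Helper88.UX.xs_of (fun h h1 => Pool.Agent.Helper82.UX.AW_meas h h1)
    (fun hδ hδ1 => to_meas_of hδ hδ1 (Pool.Agent.Helper8.UX.rtail_of hδ hδ1 (Pool.Agent.Helper8.UX.RR_pt hδ hδ1)
      (Pool.Agent.Helper36.X.pmom hδ hδ1) (Pool.Agent.Helper36.X.p2mom hδ hδ1) (Pool.Agent.Helper36.X.KK_bd hδ hδ1)
      (Pool.Agent.Helper36.X.VV_exp hδ hδ1)))
    (fun hδ hδ1 => Pool.Agent.Helper82.UX.dev_meas_of hδ hδ1 (Pool.Agent.Helper36.X.rr_bd hδ hδ1)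
      (Pool.Agent.Helper36.X.wmass hδ hδ1) (Pool.Agent.Helper65.UX.eWS hδ hδ1) (Pool.Agent.Helper65.UX.vWS hδ hδ1)
      (Pool.Agent.Helper36.X.wavg hδ hδ1))

end Pool.Agent.Helper24.UX
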