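import Pool.Agent.Helper93.UX.FinalX
import Pool.Agent.Helper77.UX.Gm
import Pool.Agent.Helper21.UX.MG
import Pool.Agent.Helper38.UX.D1
import Pool.Agent.Helper80.UX.DX1
import Pool.Agent.Helper72.UX.Holder
import Pool.Agent.Helper24.UX.Dx2
import Pool.Agent.Helper24.UX.Xs
import Pool.Agent.Helper24.TX.Asm
import Pool.Agent.Helper24.UV.Asm

/-!
# UX: the final statement from `DX3`
-/

set_option autoImplicit false
open MeasureTheory Set Filter Topology
open Pool.Agent.Helper93.UX

namespace Pool.Agent.Helper24.UX

/-- DX1: measure of the deviations of the count, lower bound -/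
theorem dx1 : DX1 :=
  Pool.Agent.Helper80.UX.dx1_of_step Pool.Agent.Helper38.UX.smooth_step xs Pool.Agent.Helper24.TX.tx1

/-- GM: long gaps are rare in the mean -/
theorem gm : GM := Pool.Agent.Helper77.UX.gm_of Pool.Agent.Helper24.TX.tx1 Pool.Agent.Helper21.UX.max_gap

/-- DX2: lower bounds for the numbers of long and short gaps -/
theorem dx2 : DX2 :=
  dx2_of (Pool.Agent.Helper72.UX.holder_left gm Pool.Agent.Helper21.UX.max_gap)
    (Pool.Agent.Helper72.UX.holder_right gm Pool.Agent.Helper21.UX.max_gap) dx1

end Pool.Agent.Helper24.UX
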